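import Pool.Agent.Y998.LQ.Defs4

/-!
# Project LR: combination of GAP and SHORT2
-/

set_option autoImplicit false

namespace Pool.Agent.Y177.LR

open Finset Equiv Filter Topology Pool.Agent.Y998.ST Pool.Agent.Y998.CN Pool.Agent.Y998.LP
open Pool.Agent.Y998.LQ

theorem natCard_sub {V : Type} [Fintype V] (p : V → Prop) [DecidablePred p] :
    Nat.card {z : V // p z} = (univ.filter p).card := by
  rw [Nat.card_eq_fintype_card, Fintype.card_subtype]

open Classical in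
theorem comb_point (hGAP : S_GAP) {V : Type} [Fintype V] [DecidableEq V] (g : Perm V) (v : V)
    (K W n k : ℕ) (e : Fin k × Fin n → V) (he : Function.Injective e) :
    (if cycleLen g v ≤ (K + 1) * W then (1 : ℝ) else 0) ≤
      (if Nat.card {p : Fin k × Fin n // g.SameCycle v (e p)} ≤ 2 * W then 1 else 0) +
      (∑ z ∈ univ.image e, if ∃ m, 1 ≤ m ∧ m ≤ K ∧ (g ^ m) z ∈ univ.image e then (1 : ℝ) else 0) /
        ((W : ℝ) + 1) := by
  set B : Finset V := univ.image e with hB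
  have hW0 : (0 : ℝ) < (W : ℝ) + 1 := by positivity
  have hs : (∑ z ∈ B, if ∃ m, 1 ≤ m ∧ m ≤ K ∧ (g ^ m) z ∈ B then (1 : ℝ) else 0) =
      ((B.filter fun z => ∃ m, 1 ≤ m ∧ m ≤ K ∧ (g ^ m) z ∈ B).card : ℝ) := by
    rw [Finset.sum_boole]
  rw [hs]
  by_cases hc : cycleLen g v ≤ (K + 1) * W
  · rw [if_pos hc]
    have h1 := (hGAP V g v B K).trans hc
    have h2 : Nat.card {z : V // z ∈ B ∧ g.SameCycle v z ∧
        ∀ m, 1 ≤ m → m ≤ K → (g ^ m) z ∉ B} ≤ W := Nat.le_of_mul_le_mul_left h1 (Nat.succ_pos K)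
    rw [natCard_sub] at h2
    have h3 : Nat.card {p : Fin k × Fin n // g.SameCycle v (e p)} =
        (B.filter fun z => g.SameCycle v z).card := by
      rw [natCard_sub, hB, Finset.filter_image, Finset.card_image_of_injective _ he]
    have h4 : (B.filter fun z => g.SameCycle v z) ⊆
        (univ.filter fun z => z ∈ B ∧ g.SameCycle v z ∧ ∀ m, 1 ≤ m → m ≤ K → (g ^ m) z ∉ B) ∪
        (B.filter fun z => ∃ m, 1 ≤ m ∧ m ≤ K ∧ (g ^ m) z ∈ B) := by
      intro z hz
      rw [Finset.mem_filter] at hz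
      rw [Finset.mem_union, Finset.mem_filter, Finset.mem_filter]
      by_cases h : ∃ m, 1 ≤ m ∧ m ≤ K ∧ (g ^ m) z ∈ B
      · exact Or.inr ⟨hz.1, h⟩
      · left
        refine ⟨Finset.mem_univ _, hz.1, hz.2, fun m h1 h2 h3 => h ⟨m, h1, h2, h3⟩⟩
    have h5 := (Finset.card_le_card h4).trans (Finset.card_union_le _ _)
    rw [h3]
    by_cases hb : (B.filter fun z => ∃ m, 1 ≤ m ∧ m ≤ K ∧ (g ^ m) z ∈ B).card ≤ W
    · rw [if_pos (by omega)]
      have : (0 : ℝ) ≤ ((B.filter fun z => ∃ m, 1 ≤ m ∧ m ≤ K ∧ (g ^ m) z ∈ B).card : ℝ) /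
        ((W : ℝ) + 1) := by positivity
      linarith
    · have h6 : W + 1 ≤ (B.filter fun z => ∃ m, 1 ≤ m ∧ m ≤ K ∧ (g ^ m) z ∈ B).card := by omega
      have h7 : (W : ℝ) + 1 ≤
          ((B.filter fun z => ∃ m, 1 ≤ m ∧ m ≤ K ∧ (g ^ m) z ∈ B).card : ℝ) := by exact_mod_cast h6
      have h8 : 1 ≤ ((B.filter fun z => ∃ m, 1 ≤ m ∧ m ≤ K ∧ (g ^ m) z ∈ B).card : ℝ) /
        ((W : ℝ) + 1) := by rwa [le_div_iff₀ hW0, one_mul]
      have h9 : (0 : ℝ) ≤ if (B.filter fun z => g.SameCycle v z).card ≤ 2 * W then 1 else 0 := by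
        split_ifs <;> norm_num
      linarith
  · rw [if_neg hc]
    have h9 : (0 : ℝ) ≤ if Nat.card {p : Fin k × Fin n // g.SameCycle v (e p)} ≤ 2 * W
        then 1 else 0 := by
      split_ifs <;> norm_num
    positivity

theorem t_COMB (hSHORT2 : Pool.Agent.Y998.LQ.S_SHORT2) (hGAP : Pool.Agent.Y998.LQ.S_GAP) :
    Pool.Agent.Y998.LQ.S_COMB := by
  classical
  intro V _ _ J t ht hJ v K W n k hW hn e he hev η hη hNN
  have h1 := hSHORT2 V J t ht hJ v (2 * W) n k (by omega) hn e he hev η hη hNN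
  refine le_trans ?_ (add_le_add_left h1 _)
  unfold stirExp
  rw [Finset.sum_comm, Finset.sum_div, ← Finset.sum_add_distrib]
  apply Finset.sum_le_sum
  intro g _
  have h2 := comb_point hGAP g v K W n k e he
  have h3 := law_nonneg hJ ht g
  calc _ ≤ stirLaw J t g * _ := mul_le_mul_of_nonneg_left h2 h3
    _ = _ := by
      rw [mul_add, ← Finset.mul_sum, mul_div_assoc]

end Pool.Agent.Y177.LR
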